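import Pool.Agent.W593.ZT.Stm

/-! ZT-K3D1. -/

open scoped Classical

set_option autoImplicit false

namespace Pool.Agent.W486.ZT

open Pool.Agent.W593.ZT

/-- few vertices carry two units -/
theorem pick {V : Type} (X : Finset V) (w : V → ℕ) (h : 2 ≤ ∑ z ∈ X, w z) :
    ∃ Z ⊆ X, Z.card ≤ 2 ∧ 2 ≤ ∑ z ∈ Z, w z := by
  by_cases h1 : ∃ z ∈ X, 2 ≤ w z
  · obtain ⟨z, hz, hw⟩ := h1
    exact ⟨{z}, by simpa using hz, by simp, by simpa using hw⟩
  · push Not at h1
    have h2 : ∑ z ∈ X, w z = (X.filter (fun z => w z = 1)).card := by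
      rw [Finset.card_filter]
      refine Finset.sum_congr rfl fun z hz => ?_
      have := h1 z hz
      split_ifs <;> omega
    rw [h2] at h
    obtain ⟨Z, hZ, hc⟩ := Finset.exists_subset_card_eq h
    refine ⟨Z, hZ.trans (Finset.filter_subset _ _), hc.le, ?_⟩
    have : ∑ z ∈ Z, w z = ∑ z ∈ Z, 1 :=
      Finset.sum_congr rfl fun z hz => (Finset.mem_filter.1 (hZ hz)).2
    rw [this]; simp [hc]

theorem k3d1 (hW : S_K3W) (hC3 : S_C3) (hCOMP : S_COMP) (hNSL : S_NSL) : S_K3D1 := by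
  intro V G _ _ _ c M B W b1 S' a Hp z0 s hK hb1 hP h2 h3
  obtain ⟨hU, -, -, -⟩ := hW V G c M B hK
  obtain ⟨Z, hZX, hZc, hZ2⟩ := pick _ _ h2
  have hZU : ∀ z ∈ Z, z ∈ Us c M B := fun z hz => (Finset.mem_inter.1 (hZX hz)).1
  have hZv : ∀ z ∈ Z, z ∈ va c S' a W Hp := fun z hz => (Finset.mem_inter.1 (hZX hz)).2
  have hCovZ : Cov ⊥ M Z (Cs c B) :=
    hC3 V G M hK.k3 Z (Cs c B) (fun z hz => ⟨(hU z (hZU z hz)).1, (hU z (hZU z hz)).2.1⟩) hZ2
  obtain ⟨L, hz, hL, hLs, hhz, hCovL⟩ := hP.lv Z hZc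
  have hLv : ∀ z ∈ L, z ∈ va c S' a W Hp := fun z h => (Finset.mem_sdiff.1 (hL h)).1
  have hdis : Disjoint Z L := by
    rw [Finset.disjoint_right]
    intro z h
    exact (Finset.mem_sdiff.1 (hL h)).2
  have hCov := hCOMP V G ⊥ M S' Z L (Cs c B) (fun z => {c z b1, c z (hz z)}) hP.le hdis
    (fun z h => ⟨(hU z (hZU z h)).1, (hU z (hZU z h)).2.1⟩) (fun z _ => by simp) hCovZ hCovL
  have hb1p : b1 ∈ Hp := hP.sub hb1
  have hvaW : ∀ z, z ∈ va c S' a W Hp → z ∉ Hp := by
    intro z h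
    simp only [va, Finset.mem_filter, Finset.mem_sdiff] at h
    exact h.1.2
  have hvac : ∀ z, z ∈ va c S' a W Hp → ∀ h ∈ Hp, c z h - a ∈ S' := by
    intro z h
    simp only [va, Finset.mem_filter, Finset.mem_sdiff] at h
    exact h.2
  have hZL : ∀ z ∈ Z ∪ L, z ∈ va c S' a W Hp := by
    intro z h
    rcases Finset.mem_union.1 h with h | h
    · exact hZv z h
    · exact hLv z h
  have key := hNSL V G c hK.ctx S' a Hp (Z ∪ L)
    (fun z => if z ∈ Z then Cs c B z else {c z b1, c z (hz z)}) (fun z => c z b1) hP.ne ⟨b1, hb1p⟩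
    (by
      rw [Finset.disjoint_right]
      intro z h
      exact hvaW z (hZL z h))
    (by
      intro z h
      by_cases hzZ : z ∈ Z
      · simp only [hzZ, if_true]
        unfold Cs
        exact Finset.image_subset_image hP.sub
      · simp only [hzZ, if_false]
        have hzL : z ∈ L := (Finset.mem_union.1 h).resolve_left hzZ
        intro x hx
        unfold Cs
        simp only [Finset.mem_insert, Finset.mem_singleton] at hx
        rcases hx with rfl | rfl
        · exact Finset.mem_image_of_mem _ hb1p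
        · exact Finset.mem_image_of_mem _ (hhz z hzL))
    hCov
    (by
      intro z h
      by_cases hzZ : z ∈ Z
      · simp only [hzZ, if_true]
        exact Finset.mem_image_of_mem _ hb1
      · simp only [hzZ, if_false]
        simp)
    (by
      have : ∑ z ∈ Z ∪ L, c z b1 - (Z ∪ L).card • a = ∑ z ∈ Z ∪ L, (c z b1 - a) := by
        rw [Finset.sum_sub_distrib, Finset.sum_const]
      rw [this]
      exact sum_mem fun z h => hvac z (hZL z h) b1 hb1p)
  have hsub : va c S' a W Hp \ (Z ∪ L)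
      ⊆ (Finset.univ \ (Hp ∪ (Z ∪ L))).filter (fun y => ∃ h ∈ Hp, c y h - a ∈ S') := by
    intro y hy
    obtain ⟨hy1, hy2⟩ := Finset.mem_sdiff.1 hy
    refine Finset.mem_filter.2 ⟨Finset.mem_sdiff.2 ⟨Finset.mem_univ _, ?_⟩, b1, hb1p,
      hvac y hy1 b1 hb1p⟩
    intro h
    rcases Finset.mem_union.1 h with h | h
    · exact hvaW y hy1 h
    · exact hy2 h
  have hc1 := Finset.card_le_card hsub
  have hc2 : (va c S' a W Hp).card ≤ (va c S' a W Hp \ (Z ∪ L)).card + (Z ∪ L).card := by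
    have := Finset.card_le_card (Finset.subset_union_left
      (s₁ := va c S' a W Hp) (s₂ := Z ∪ L))
    rw [← Finset.sdiff_union_self_eq_union] at this
    exact this.trans (Finset.card_union_le _ _)
  have hc3 := Finset.card_union_le Z L
  have hc4 : (va c S' a W Hp).card + (wr c S' a W Hp).card = (W \ Hp).card := by
    have := Finset.card_filter_add_card_filter_not (s := W \ Hp)
      (fun z => ∀ h ∈ Hp, c z h - a ∈ S')
    unfold va wr
    convert this
  have hc5 := hP.wrb
  omega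

end Pool.Agent.W486.ZT
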